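import Pool.Agent.H76.SD.Targets2

/-!
# (NTS) a normalised net of the nonnegative functions in a space of finite dimension
-/

namespace Pool.Agent.H68.CX

open Finset

/-- the function with the coefficients `p` -/
noncomputable def val {X : Type} {k : ℕ} (v : X → Fin k → ℝ) (p : Fin k → ℝ) (x : X) : ℝ :=
  ∑ a, p a * v x a

theorem val_div {X : Type} {k : ℕ} (v : X → Fin k → ℝ) (p : Fin k → ℝ) (s : ℝ) (x : X) :
    val v (fun a => p a / s) x = val v p x / s := by
  unfold val
  rw [Finset.sum_div]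
  exact Finset.sum_congr rfl fun a _ => by ring

theorem val_span {X : Type} {k : ℕ} {C B : Finset X} {v : X → Fin k → ℝ} {lam : X → X → ℝ}
    (hlam : ∀ x ∈ C, (∀ b, |lam x b| ≤ 1) ∧ ∀ a, v x a = ∑ b ∈ B, lam x b * v b a)
    (p : Fin k → ℝ) : ∀ x ∈ C, val v p x = ∑ b ∈ B, lam x b * val v p b := by
  intro x hx
  unfold val
  calc ∑ a, p a * v x a = ∑ a, p a * ∑ b ∈ B, lam x b * v b a := by
        refine Finset.sum_congr rfl fun a _ => ?_
        rw [(hlam x hx).2 a]
    _ = ∑ a, ∑ b ∈ B, lam x b * (p a * v b a) := by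
        refine Finset.sum_congr rfl fun a _ => ?_
        rw [Finset.mul_sum]
        refine Finset.sum_congr rfl fun b _ => ?_
        ring
    _ = ∑ b ∈ B, lam x b * ∑ a, p a * v b a := by
        rw [Finset.sum_comm]
        refine Finset.sum_congr rfl fun b _ => ?_
        rw [Finset.mul_sum]

/-- (NTS) -/
theorem nts (hspan : H60.CV.S_SPAN) : H76.CX.T_NTS := by
  intro X _ _ C k M0 v hM0
  classical
  obtain ⟨B, hBS, hBc, lam, hlam⟩ := hspan X C k v
  have hM : (0 : ℝ) < M0 := by exact_mod_cast hM0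
  obtain ⟨σ⟩ : Nonempty (B ↪ Fin k) := by
    apply Function.Embedding.nonempty_of_card_le
    simpa using hBc
  have hval : ∀ p, ∀ x ∈ C, val v p x = ∑ b ∈ B, lam x b * val v p b := val_span hlam
  let Good : (Fin k → Fin (M0 + 1)) → (Fin k → ℝ) → Prop := fun z p =>
    (∀ x ∈ C, 0 ≤ val v p x) ∧ ∑ b ∈ B, val v p b = 1 ∧
      ∀ b : B, |val v p b - ((z (σ b) : ℕ) : ℝ) / M0| ≤ 1 / M0
  have hle1 : ∀ p, (∀ x ∈ C, 0 ≤ val v p x) → ∑ b ∈ B, val v p b = 1 → ∀ x ∈ C,
      val v p x ≤ 1 := by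
    intro p h0 h1 x hx
    rw [hval p x hx, ← h1]
    refine Finset.sum_le_sum fun b hb => ?_
    have h2 : 0 ≤ val v p b := h0 b (hBS hb)
    calc lam x b * val v p b ≤ 1 * val v p b :=
          mul_le_mul_of_nonneg_right (le_trans (le_abs_self _) ((hlam x hx).1 b)) h2
      _ = val v p b := one_mul _
  let Z : Finset (Fin k → Fin (M0 + 1)) := Finset.univ.filter fun z => ∃ p, Good z p
  have hZ : ∀ z : Z, ∃ p, Good z.1 p := fun z => (Finset.mem_filter.1 z.2).2
  choose P hP using hZ
  have hS : ∀ z : Z, 1 ≤ ∑ x ∈ C, val v (P z) x := by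
    intro z
    rw [← (hP z).2.1]
    exact Finset.sum_le_sum_of_subset_of_nonneg hBS fun x hx _ => (hP z).1 x hx
  let Q : Z → Fin k → ℝ := fun z a => P z a / ∑ x ∈ C, val v (P z) x
  have hQ : ∀ z x, val v (Q z) x = val v (P z) x / ∑ x ∈ C, val v (P z) x := fun z x =>
    val_div v (P z) _ x
  have hQ0 : ∀ z, ∀ x ∈ C, 0 ≤ val v (Q z) x := by
    intro z x hx
    rw [hQ]
    exact div_nonneg ((hP z).1 x hx) (zero_le_one.trans (hS z))
  have hQ1 : ∀ z, ∑ x ∈ C, val v (Q z) x = 1 := by
    intro z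
    simp only [hQ]
    rw [← Finset.sum_div, div_self]
    have := hS z
    linarith
  let e := Z.equivFin
  let ps : Fin Z.card → Fin k → ℝ := fun i => Q (e.symm i)
  obtain ⟨B1, -, hB1c, lam', hlam'⟩ := hspan (Fin Z.card) Finset.univ k ps
  have hps : ∀ i, ∀ x ∈ C, val v (ps i) x ≤ ∑ b ∈ B1, val v (ps b) x := by
    intro i x hx
    have h1 : val v (ps i) x = ∑ b ∈ B1, lam' i b * val v (ps b) x := by
      unfold val
      calc ∑ a, ps i a * v x a = ∑ a, (∑ b ∈ B1, lam' i b * ps b a) * v x a := by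
            refine Finset.sum_congr rfl fun a _ => ?_
            rw [← (hlam' i (Finset.mem_univ _)).2 a]
        _ = ∑ a, ∑ b ∈ B1, lam' i b * (ps b a * v x a) := by
            refine Finset.sum_congr rfl fun a _ => ?_
            rw [Finset.sum_mul]
            refine Finset.sum_congr rfl fun b _ => ?_
            ring
        _ = ∑ b ∈ B1, lam' i b * ∑ a, ps b a * v x a := by
            rw [Finset.sum_comm]
            refine Finset.sum_congr rfl fun b _ => ?_
            rw [Finset.mul_sum]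
    rw [h1]
    refine Finset.sum_le_sum fun b hb => ?_
    have h2 : 0 ≤ val v (ps b) x := hQ0 _ x hx
    calc lam' i b * val v (ps b) x ≤ 1 * val v (ps b) x :=
          mul_le_mul_of_nonneg_right
            (le_trans (le_abs_self _) ((hlam' i (Finset.mem_univ _)).1 b)) h2
      _ = val v (ps b) x := one_mul _
  refine ⟨Z.card, ps, fun x => if x ∈ C then ∑ b ∈ B1, val v (ps b) x else 0, ?_, ?_, ?_, ?_, ?_,
    ?_, ?_⟩
  · calc Z.card ≤ Fintype.card (Fin k → Fin (M0 + 1)) := Finset.card_le_univ _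
      _ = (M0 + 1) ^ k := by simp
  · intro x
    change 0 ≤ if x ∈ C then ∑ b ∈ B1, val v (ps b) x else 0
    split_ifs with hx
    · exact Finset.sum_nonneg fun b _ => hQ0 _ x hx
    · exact le_rfl
  · change ∑ x, (if x ∈ C then ∑ b ∈ B1, val v (ps b) x else 0) ≤ (k : ℝ)
    rw [← Finset.sum_filter, Finset.filter_mem_eq_inter, Finset.univ_inter, Finset.sum_comm]
    have h1 : ∀ b ∈ B1, ∑ x ∈ C, val v (ps b) x = 1 := fun b _ => hQ1 _
    rw [Finset.sum_congr rfl h1, Finset.sum_const, nsmul_eq_mul, mul_one]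
    exact_mod_cast hB1c
  · intro z x hx
    exact hQ0 _ x hx
  · intro z
    exact hQ1 _
  · intro z x hx
    change _ ≤ if x ∈ C then ∑ b ∈ B1, val v (ps b) x else 0
    rw [if_pos hx]
    exact hps z x hx
  · intro qs hqs hpos0
    have hqs' : ∀ x ∈ C, 0 ≤ val v qs x := hqs
    set sg := ∑ x ∈ C, val v qs x with hsg
    have hpos0' : 0 < sg := hpos0
    set s : ℝ := ∑ b ∈ B, val v qs b with hs
    have hs0 : 0 ≤ s := Finset.sum_nonneg fun b hb => hqs' b (hBS hb)
    have hpos : 0 < s := by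
      rcases hs0.eq_or_lt with h0 | hpos
      · exfalso
        have h1 : ∀ b ∈ B, val v qs b = 0 :=
          (Finset.sum_eq_zero_iff_of_nonneg (fun b hb => hqs' b (hBS hb))).1 (hs.symm.trans h0.symm)
        have h2 : sg = 0 := by
          rw [hsg]
          refine Finset.sum_eq_zero fun x hx => ?_
          rw [hval qs x hx]
          exact Finset.sum_eq_zero fun b hb => by rw [h1 b hb, mul_zero]
        exact hpos0'.ne' h2
      · exact hpos
    have hsle : s ≤ sg :=
      Finset.sum_le_sum_of_subset_of_nonneg hBS fun x hx _ => hqs' x hx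
    let ps' : Fin k → ℝ := fun a => qs a / s
    have hval' : ∀ x, val v ps' x = val v qs x / s := fun x => val_div v qs s x
    have h0' : ∀ x ∈ C, 0 ≤ val v ps' x := by
      intro x hx
      rw [hval']
      exact div_nonneg (hqs' x hx) hs0
    have h1' : ∑ b ∈ B, val v ps' b = 1 := by
      simp only [hval']
      rw [← Finset.sum_div, ← hs, div_self hpos.ne']
    let z : Fin k → Fin (M0 + 1) := fun i =>
      if h : ∃ b : B, σ b = i then
        ⟨min ⌊(M0 : ℝ) * val v ps' h.choose⌋₊ M0, by omega⟩ else 0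
    have hz : ∀ b : B, |val v ps' b - ((z (σ b) : ℕ) : ℝ) / M0| ≤ 1 / M0 := by
      intro b
      have hex : ∃ b' : B, σ b' = σ b := ⟨b, rfl⟩
      have hch : hex.choose = b := σ.injective hex.choose_spec
      have hb0 : 0 ≤ val v ps' b := h0' _ (hBS b.2)
      have hb1 : val v ps' b ≤ 1 := hle1 ps' h0' h1' _ (hBS b.2)
      have hz1 : (z (σ b) : ℕ) = ⌊(M0 : ℝ) * val v ps' b⌋₊ := by
        simp only [z]
        rw [dif_pos hex]
        change min ⌊(M0 : ℝ) * val v ps' hex.choose⌋₊ M0 = ⌊(M0 : ℝ) * val v ps' b⌋₊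
        rw [hch]
        apply min_eq_left
        have : ⌊(M0 : ℝ) * val v ps' b⌋₊ ≤ ⌊(M0 : ℝ)⌋₊ := by
          apply Nat.floor_le_floor
          nlinarith
        simpa using this
      rw [hz1]
      have h2 := Nat.floor_le (mul_nonneg hM.le hb0)
      have h3 := Nat.lt_floor_add_one ((M0 : ℝ) * val v ps' b)
      have h4 : val v ps' b - ((⌊(M0 : ℝ) * val v ps' b⌋₊ : ℕ) : ℝ) / M0 =
          ((M0 : ℝ) * val v ps' b - (⌊(M0 : ℝ) * val v ps' b⌋₊ : ℕ)) / M0 := by
        field_simp
      rw [h4, abs_div, abs_of_pos hM]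
      refine div_le_div_of_nonneg_right ?_ hM.le
      rw [abs_le]
      constructor
      · linarith
      · linarith
    have hgood : z ∈ Z := Finset.mem_filter.2 ⟨Finset.mem_univ _, ps', h0', h1', hz⟩
    obtain ⟨hq0, hq1, hq2⟩ := hP ⟨z, hgood⟩
    set q := P ⟨z, hgood⟩ with hq
    have hS1 := hS ⟨z, hgood⟩
    rw [← hq] at hS1
    have hSne : ∑ x ∈ C, val v q x ≠ 0 := by linarith
    refine ⟨e ⟨z, hgood⟩, s * ∑ x ∈ C, val v q x, mul_nonneg hs0 (by linarith), fun x hx => ?_⟩
    change |val v qs x - s * (∑ x ∈ C, val v q x) * val v (Q (e.symm (e ⟨z, hgood⟩))) x| ≤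
      sg * (2 * k / M0)
    rw [Equiv.symm_apply_apply, hQ, ← hq]
    have hdiff : ∀ b ∈ B, |val v ps' b - val v q b| ≤ 2 / M0 := by
      intro b hb
      have e1 := hz ⟨b, hb⟩
      have e2 := hq2 ⟨b, hb⟩
      simp only at e1 e2
      have e3 : val v ps' b - val v q b =
          (val v ps' b - ((z (σ ⟨b, hb⟩) : ℕ) : ℝ) / M0) -
            (val v q b - ((z (σ ⟨b, hb⟩) : ℕ) : ℝ) / M0) := by ring
      rw [e3]
      refine le_trans (abs_sub _ _) ?_
      have e4 : (2 : ℝ) / M0 = 1 / M0 + 1 / M0 := by ring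
      rw [e4]
      exact add_le_add e1 e2
    have hx' : |val v ps' x - val v q x| ≤ 2 * k / M0 := by
      rw [hval ps' x hx, hval q x hx, ← Finset.sum_sub_distrib]
      refine le_trans (Finset.abs_sum_le_sum_abs _ _) ?_
      calc ∑ b ∈ B, |lam x b * val v ps' b - lam x b * val v q b|
          ≤ ∑ b ∈ B, (2 : ℝ) / M0 := by
            refine Finset.sum_le_sum fun b hb => ?_
            rw [← mul_sub, abs_mul]
            calc |lam x b| * |val v ps' b - val v q b| ≤ 1 * (2 / M0) :=
                  mul_le_mul ((hlam x hx).1 b) (hdiff b hb) (abs_nonneg _) zero_le_one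
              _ = 2 / M0 := one_mul _
        _ = B.card * (2 / M0) := by rw [Finset.sum_const, nsmul_eq_mul]
        _ ≤ k * (2 / M0) := by
            refine mul_le_mul_of_nonneg_right ?_ (by positivity)
            exact_mod_cast hBc
        _ = 2 * k / M0 := by ring
    have e5 : val v qs x = s * val v ps' x := by
      rw [hval']
      field_simp
    have e6 : s * (∑ x ∈ C, val v q x) * (val v q x / ∑ x ∈ C, val v q x) = s * val v q x := by
      field_simp
    rw [e6, e5, ← mul_sub, abs_mul, abs_of_pos hpos]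
    have h9 : (0 : ℝ) ≤ 2 * k / M0 := by positivity
    calc s * |val v ps' x - val v q x| ≤ s * (2 * k / M0) := mul_le_mul_of_nonneg_left hx' hs0
      _ ≤ sg * (2 * k / M0) := mul_le_mul_of_nonneg_right hsle h9

end Pool.Agent.H68.CX
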